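import Mathlib

/-!
An exact identity for partial sums of central binomial coefficients.
-/

namespace Pool.Agent.V11304.EC

open Finset Polynomial

/-- `∑_{r ≤ M} C(2r,r) = ∑_{r ≤ M} (-1)^{M-r} C(3M+2-r, r)`. -/
theorem nid (M : ℕ) :
    ∑ r ∈ range (M + 1), ((2 * r).choose r : ℤ) =
      ∑ r ∈ range (M + 1), (-1) ^ (M - r) * ((3 * M + 2 - r).choose r : ℤ) := by
  set P1 : ℤ[X] := ∑ i ∈ range (M + 1), X ^ i * ((1 + X) ^ 2) ^ (M + 1 - 1 - i) with hP1
  set P2 : ℤ[X] := ∑ i ∈ range (M + 1), (-(X * (1 + X))) ^ i with hP2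
  have e1 : P1 * (X - (1 + X) ^ 2) = X ^ (M + 1) - ((1 + X) ^ 2) ^ (M + 1) :=
    (Commute.all _ _).geom_sum₂_mul (M + 1)
  have e2 : P2 * (-(X * (1 + X)) - 1) = (-(X * (1 + X))) ^ (M + 1) - 1 :=
    geom_sum_mul _ _
  have hcop : IsCoprime ((X : ℤ[X]) ^ (M + 1)) (1 + X + X ^ 2) := by
    apply IsCoprime.pow_left
    exact ⟨-(1 + X), 1, by ring⟩
  have hdvd : (X : ℤ[X]) ^ (M + 1) ∣ (1 + X + X ^ 2) * (P1 - (1 + X) ^ (2 * M + 2) * P2) := by
    refine ⟨-1 + (-1) ^ (M + 1) * (1 + X) ^ (3 * M + 3), ?_⟩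
    have h1 : (1 + X + X ^ 2) * P1 = -(X ^ (M + 1)) + (1 + X) ^ (2 * M + 2) := by
      have : ((1 + X : ℤ[X]) ^ 2) ^ (M + 1) = (1 + X) ^ (2 * M + 2) := by
        rw [← pow_mul]; ring
      rw [this] at e1
      linear_combination -e1
    have h2 : (1 + X + X ^ 2) * P2 = 1 - (-1) ^ (M + 1) * X ^ (M + 1) * (1 + X) ^ (M + 1) := by
      have : (-(X * (1 + X)) : ℤ[X]) ^ (M + 1) = (-1) ^ (M + 1) * X ^ (M + 1) * (1 + X) ^ (M + 1) := by
        rw [neg_pow, mul_pow]; ring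
      rw [this] at e2
      linear_combination -e2
    have h3 : (1 + X : ℤ[X]) ^ (3 * M + 3) = (1 + X) ^ (2 * M + 2) * (1 + X) ^ (M + 1) := by
      rw [← pow_add]; ring
    rw [h3]
    linear_combination h1 - (1 + X) ^ (2 * M + 2) * h2
  have hdvd2 := hcop.dvd_of_dvd_mul_left hdvd
  have hcoef := (X_pow_dvd_iff.mp hdvd2) M (Nat.lt_succ_self M)
  rw [coeff_sub, sub_eq_zero] at hcoef
  have c1 : P1.coeff M = ∑ i ∈ range (M + 1), ((2 * (M - i)).choose (M - i) : ℤ) := by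
    rw [hP1, finsetSum_coeff]
    refine Finset.sum_congr rfl fun i hi => ?_
    rw [mem_range] at hi
    rw [coeff_X_pow_mul', if_pos (by omega), ← pow_mul, coeff_one_add_X_pow,
      show M + 1 - 1 - i = M - i by omega]
  have c2 : ((1 + X : ℤ[X]) ^ (2 * M + 2) * P2).coeff M =
      ∑ i ∈ range (M + 1), (-1) ^ i * ((2 * M + 2 + i).choose (M - i) : ℤ) := by
    rw [hP2, mul_sum, finsetSum_coeff]
    refine Finset.sum_congr rfl fun i hi => ?_
    rw [mem_range] at hi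
    have : (1 + X : ℤ[X]) ^ (2 * M + 2) * (-(X * (1 + X))) ^ i =
        C ((-1) ^ i) * (X ^ i * (1 + X) ^ (2 * M + 2 + i)) := by
      rw [neg_pow, mul_pow, pow_add]
      simp only [map_pow, map_neg, map_one]
      ring
    rw [this, coeff_C_mul, coeff_X_pow_mul', if_pos (by omega), coeff_one_add_X_pow]
  rw [c1, c2] at hcoef
  have r1 : ∑ i ∈ range (M + 1), ((2 * (M - i)).choose (M - i) : ℤ) =
      ∑ r ∈ range (M + 1), ((2 * r).choose r : ℤ) := by
    rw [← Finset.sum_range_reflect]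
    refine Finset.sum_congr rfl fun i hi => ?_
    rw [mem_range] at hi
    rw [show M - (M + 1 - 1 - i) = i by omega]
  have r2 : ∑ i ∈ range (M + 1), (-1) ^ i * ((2 * M + 2 + i).choose (M - i) : ℤ) =
      ∑ r ∈ range (M + 1), (-1) ^ (M - r) * ((3 * M + 2 - r).choose r : ℤ) := by
    rw [← Finset.sum_range_reflect]
    refine Finset.sum_congr rfl fun i hi => ?_
    rw [mem_range] at hi
    rw [show M + 1 - 1 - i = M - i by omega, show M - (M - i) = i by omega,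
      show 2 * M + 2 + (M - i) = 3 * M + 2 - i by omega]
  rw [← r1, hcoef, r2]

end Pool.Agent.V11304.EC
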