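import Mathlib
import Pool.Agent.V11304.EC.Poly

/-!
Central binomial sums modulo a prime `p ≡ 2 (mod 3)`.
-/

namespace Pool.Agent.V11304.EC

open Finset

variable {p : ℕ} [hp : Fact p.Prime]

/-- The central binomial coefficient in `ZMod p`. -/
def c (p : ℕ) (j : ℕ) : ZMod p := (((2 * j).choose j : ℕ) : ZMod p)

theorem c_zero : c p 0 = 1 := by simp [c]

theorem c_succ (j : ℕ) : ((j : ZMod p) + 1) * c p (j + 1) = 2 * (2 * j + 1) * c p j := by
  have h := Nat.succ_mul_centralBinom_succ j
  rw [Nat.centralBinom_eq_two_mul_choose, Nat.centralBinom_eq_two_mul_choose] at h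
  have h2 := congrArg (fun t : ℕ => (t : ZMod p)) h
  unfold c
  push_cast at h2 ⊢
  exact h2

theorem cast_ne {j : ℕ} (h0 : 0 < j) (h1 : j < p) : (j : ZMod p) ≠ 0 := by
  intro h
  have := (ZMod.natCast_eq_zero_iff j p).mp h
  exact absurd (Nat.le_of_dvd h0 this) (by omega)

theorem cast_succ_ne {j : ℕ} (h1 : j + 1 < p) : (j : ZMod p) + 1 ≠ 0 := by
  have := cast_ne (p := p) (j := j + 1) (by omega) h1
  push_cast at this
  exact this

/-- `∑_{r ≤ M} C(2r,r) ≡ -1/3` for `p = 3M+2` odd. -/
theorem nsum {M : ℕ} (hM : p = 3 * M + 2) (hodd : Odd M) :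
    3 * ∑ r ∈ range (M + 1), c p r = -1 := by
  have h := congrArg (fun t : ℤ => (t : ZMod p)) (nid M)
  simp only [Int.cast_sum, Int.cast_mul, Int.cast_pow, Int.cast_neg, Int.cast_one,
    Int.cast_natCast] at h
  have key : ∀ s, s + 1 ≤ M →
      2 * (((3 * M + 2 - (s + 1)).choose (s + 1) : ℕ) : ZMod p) = (-1) ^ (s + 1) * c p (s + 1) := by
    intro s hs
    have h1 : ((p - (s + 1)).descFactorial (s + 1) : ZMod p) =
        (-1) ^ (s + 1) * ((s + 1).ascFactorial (s + 1) : ZMod p) := by
      rw [Nat.descFactorial_eq_prod_range, Nat.ascFactorial_eq_prod_range]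
      push_cast
      have : ((-1 : ZMod p)) ^ (s + 1) = ∏ i ∈ range (s + 1), (-1) := by simp
      rw [this, ← Finset.prod_mul_distrib]
      refine Finset.prod_congr rfl fun i hi => ?_
      rw [mem_range] at hi
      rw [Nat.cast_sub (by omega), Nat.cast_sub (by omega)]
      simp only [CharP.cast_eq_zero]
      push_cast
      ring
    rw [Nat.descFactorial_eq_factorial_mul_choose, Nat.ascFactorial_eq_factorial_mul_choose'] at h1
    have hf : (((s + 1).factorial : ℕ) : ZMod p) ≠ 0 := by
      intro h0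
      have := (ZMod.natCast_eq_zero_iff _ p).mp h0
      exact absurd ((hp.out.dvd_factorial).mp this) (by omega)
    push_cast at h1
    have h2 : (((p - (s + 1)).choose (s + 1) : ℕ) : ZMod p) =
        (-1) ^ (s + 1) * (((s + 1 + (s + 1) - 1).choose (s + 1) : ℕ) : ZMod p) := by
      apply mul_left_cancel₀ hf
      linear_combination h1
    rw [← hM, h2]
    unfold c
    have e1 : (2 * (s + 1)).choose (s + 1) = 2 * (2 * s + 1).choose (s + 1) := by
      have e : (2 * s + 1 + 1).choose (s + 1) = (2 * s + 1).choose s + (2 * s + 1).choose (s + 1) :=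
        Nat.choose_succ_succ (2 * s + 1) s
      have e2 : (2 * s + 1).choose (s + 1) = (2 * s + 1).choose s := Nat.choose_symm_half s
      rw [show 2 * (s + 1) = 2 * s + 1 + 1 by ring, e, ← e2]
      ring
    rw [show s + 1 + (s + 1) - 1 = 2 * s + 1 by omega, e1]
    push_cast
    ring
  have h3 : ∀ r ∈ range (M + 1), (-1 : ZMod p) ^ (M - r) * (((3 * M + 2 - r).choose r : ℕ) : ZMod p) * 2
      = - (c p r + if r = 0 then 1 else 0) := by
    intro r hr
    rw [mem_range] at hr
    rcases Nat.eq_zero_or_pos r with rfl | hr0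
    · simp only [Nat.sub_zero, Nat.choose_zero_right, Nat.cast_one, if_true, c_zero]
      rw [hodd.neg_one_pow]
      ring
    · obtain ⟨s, rfl⟩ : ∃ s, r = s + 1 := ⟨r - 1, by omega⟩
      rw [if_neg (by omega)]
      have h4 := key s (by omega)
      have h5 : (-1 : ZMod p) ^ (M - (s + 1)) * (-1) ^ (s + 1) = -1 := by
        rw [← pow_add, show M - (s + 1) + (s + 1) = M by omega, hodd.neg_one_pow]
      linear_combination ((-1 : ZMod p) ^ (M - (s + 1))) * h4 + c p (s + 1) * h5
  have h6 : (∑ r ∈ range (M + 1), c p r) * 2 = -(∑ r ∈ range (M + 1), c p r + 1) := by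
    have : ∑ r ∈ range (M + 1), c p r = ∑ r ∈ range (M + 1), (-1 : ZMod p) ^ (M - r) * (((3 * M + 2 - r).choose r : ℕ) : ZMod p) := h
    conv_lhs => rw [this]
    rw [Finset.sum_mul, Finset.sum_congr rfl h3, Finset.sum_neg_distrib, Finset.sum_add_distrib]
    simp
  linear_combination h6

/-- the half-range sum equals `(1-4)^n`. -/
theorem c_eq {n : ℕ} (hn : p = 2 * n + 1) (j : ℕ) (hj : j ≤ n) :
    c p j = (-4) ^ j * ((n.choose j : ℕ) : ZMod p) := by
  have h2n : 2 * (n : ZMod p) + 1 = 0 := by
    have : ((2 * n + 1 : ℕ) : ZMod p) = 0 := by rw [← hn]; exact ZMod.natCast_self p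
    push_cast at this
    exact this
  induction j with
  | zero => simp [c_zero]
  | succ j ih =>
    have h1 := c_succ (p := p) j
    rw [ih (by omega)] at h1
    have h2 : ((j : ZMod p) + 1) * ((n.choose (j + 1) : ℕ) : ZMod p) =
        (n - j) * ((n.choose j : ℕ) : ZMod p) := by
      have := Nat.choose_succ_right_eq n j
      have h3 := congrArg (fun t : ℕ => (t : ZMod p)) this
      push_cast at h3
      rw [Nat.cast_sub (by omega)] at h3
      linear_combination h3
    have hne : (j : ZMod p) + 1 ≠ 0 := cast_succ_ne (by omega)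
    apply mul_left_cancel₀ hne
    rw [h1]
    have : (-4 : ZMod p) ^ (j + 1) = (-4) ^ j * (-4) := pow_succ _ _
    rw [this]
    linear_combination (-(-4) ^ j * (-4)) * h2 + 2 * (-4) ^ j * ((n.choose j : ℕ) : ZMod p) * h2n

theorem csum {n : ℕ} (hn : p = 2 * n + 1) : ∑ j ∈ range (n + 1), c p j = (-3) ^ n := by
  have h : (-3 : ZMod p) ^ n = ((-4) + 1) ^ n := by norm_num
  rw [h, add_pow]
  refine Finset.sum_congr rfl fun j hj => ?_
  rw [mem_range] at hj
  rw [c_eq hn j (by omega)]
  simp

theorem neg_three {n : ℕ} (hn : p = 2 * n + 1) (h3 : p % 3 = 2) : (-3 : ZMod p) ^ n = -1 := by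
  have hp2 : p ≠ 2 := by omega
  have h3ne : (3 : ZMod p) ≠ 0 := by
    have := cast_ne (p := p) (j := 3) (by norm_num) (by
      rcases Nat.lt_or_ge 3 p with h | h
      · exact h
      · have := hp.out.two_le
        omega)
    exact_mod_cast this
  have h2ne : (2 : ZMod p) ≠ 0 := by
    have := cast_ne (p := p) (j := 2) (by norm_num) (by have := hp.out.two_le; omega)
    exact_mod_cast this
  have hne : (-3 : ZMod p) ≠ 0 := neg_ne_zero.mpr h3ne
  have hdiv : p / 2 = n := by omega
  rcases ZMod.pow_div_two_eq_neg_one_or_one p hne with h | h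
  · exfalso
    obtain ⟨s, hs⟩ := (ZMod.euler_criterion p hne).mpr h
    set w : ZMod p := (-1 + s) / 2 with hw
    have hw2 : 2 * w = -1 + s := by rw [hw]; field_simp
    have hq : w ^ 2 + w + 1 = 0 := by
      have h4 : (4 : ZMod p) ≠ 0 := by
        have : (4 : ZMod p) = 2 * 2 := by norm_num
        rw [this]; exact mul_ne_zero h2ne h2ne
      apply mul_left_cancel₀ h4
      linear_combination (2 * w + 1 + s) * hw2 - hs
    have hc : w ^ 3 = 1 := by linear_combination (w - 1) * hq
    have hw0 : w ≠ 0 := by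
      intro h0
      rw [h0] at hc
      norm_num at hc
    have hfl : w ^ (p - 1) = 1 := ZMod.pow_card_sub_one_eq_one hw0
    have hw1 : w = 1 := by
      obtain ⟨q, hq3⟩ : ∃ q, p = 3 * q + 2 := ⟨p / 3, by omega⟩
      have e1 : w ^ (p - 1) = w := by
        rw [show p - 1 = 3 * q + 1 by omega, pow_add, pow_mul, hc, one_pow, one_mul, pow_one]
      rw [← e1]; exact hfl
    rw [hw1] at hq
    apply h3ne
    linear_combination hq
  · rw [hdiv] at h
    exact h

/-- The telescoping relation. -/
theorem tele (m J : ℕ) (hm : 1 ≤ m) (hmJ : m + J < p) :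
    ∑ j ∈ range J, (((m : ZMod p) + 1) * c p (m + 1)) * c p j / ((m : ZMod p) + 1 + j) =
      ∑ j ∈ range J, ((m : ZMod p) * c p m) * c p j / ((m : ZMod p) + j)
      + 3 * c p m * ∑ j ∈ range J, c p j - c p m * (J * c p J) / ((m : ZMod p) + J) := by
  induction J with
  | zero => simp
  | succ J ih =>
    rw [Finset.sum_range_succ, Finset.sum_range_succ, Finset.sum_range_succ, ih (by omega)]
    have h1 := c_succ (p := p) m
    have h2 := c_succ (p := p) J
    have n1 : (m : ZMod p) + J ≠ 0 := by
      have := cast_ne (p := p) (j := m + J) (by omega) (by omega)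
      push_cast at this
      exact this
    have n2 : (m : ZMod p) + 1 + J ≠ 0 := by
      have := cast_ne (p := p) (j := m + 1 + J) (by omega) (by omega)
      push_cast at this
      exact this
    have n3 : (m : ZMod p) + (J + 1) ≠ 0 := by
      intro h; apply n2; linear_combination h
    rw [h1]
    push_cast
    have e : (m : ZMod p) + ((J : ZMod p) + 1) = (m : ZMod p) + 1 + J := by ring
    rw [e, h2]
    field_simp
    ring

/-- the value of the sum with `1/(m+j)`. -/
theorem ksum {n : ℕ} (hn : p = 2 * n + 1) (h3 : p % 3 = 2) (m : ℕ) (hm : 1 ≤ m) (hmn : m ≤ n) :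
    ∑ j ∈ range (n + 1), ((m : ZMod p) * c p m) * c p j / ((m : ZMod p) + j) =
      1 - 3 * ∑ i ∈ range m, c p i := by
  have hN : ∑ j ∈ range (n + 1), c p j = -1 := by rw [csum hn, neg_three hn h3]
  have hcJ : c p (n + 1) = 0 := by
    have h := c_succ (p := p) n
    have h2n : 2 * (n : ZMod p) + 1 = 0 := by
      have : ((2 * n + 1 : ℕ) : ZMod p) = 0 := by rw [← hn]; exact ZMod.natCast_self p
      push_cast at this
      exact this
    rw [h2n] at h
    have hne : (n : ZMod p) + 1 ≠ 0 := cast_succ_ne (by omega)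
    have : ((n : ZMod p) + 1) * c p (n + 1) = 0 := by rw [h]; ring
    exact (mul_eq_zero.mp this).resolve_left hne
  induction m with
  | zero => omega
  | succ m ih =>
    rcases Nat.eq_zero_or_pos m with rfl | hm0
    · have h2ne : (2 : ZMod p) ≠ 0 := by
        have := cast_ne (p := p) (j := 2) (by norm_num) (by have := hp.out.two_le; omega)
        exact_mod_cast this
      have c1 : c p 1 = 2 := by simp [c]
      have hterm : ∀ j ∈ range (n + 1), (((0 + 1 : ℕ) : ZMod p) * c p (0 + 1)) * c p j / (((0 + 1 : ℕ) : ZMod p) + j)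
          = 4 * c p j - c p (j + 1) := by
        intro j hj
        rw [mem_range] at hj
        have hne : (j : ZMod p) + 1 ≠ 0 := cast_succ_ne (by omega)
        have hne' : (1 : ZMod p) + j ≠ 0 := by rwa [add_comm]
        have h := c_succ (p := p) j
        simp only [zero_add, Nat.cast_one, one_mul, c1]
        rw [div_eq_iff hne']
        linear_combination h
      rw [Finset.sum_congr rfl hterm, Finset.sum_sub_distrib, ← Finset.mul_sum, hN]
      have hs : ∑ j ∈ range (n + 1), c p (j + 1) = -2 := by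
        have e1 := Finset.sum_range_succ' (c p) (n + 1)
        have e2 := Finset.sum_range_succ (c p) (n + 1)
        rw [e2, hN, hcJ, c_zero] at e1
        linear_combination -e1
      rw [hs]
      simp [c_zero]
      norm_num
    · have h := tele (p := p) m (n + 1) hm0 (by omega)
      rw [ih hm0 (by omega), hN, hcJ] at h
      push_cast
      rw [h, Finset.sum_range_succ]
      ring

end Pool.Agent.V11304.EC
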