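import Mathlib
import Pool.Agent.V11304.EC.ModP

/-!
The sum of `a(n) = ∑ C(n,j) C(n-j,j) C(n+j,j)` over `n < p`.
-/

namespace Pool.Agent.V11304.EC

open Finset

/-- the term. -/
def tm (n j : ℕ) : ℕ := n.choose j * (n - j).choose j * (n + j).choose j

theorem tm_eq (n j : ℕ) : j.factorial ^ 3 * tm n j = (3 * j).factorial * (n + j).choose (3 * j) := by
  unfold tm
  rcases Nat.lt_or_ge n (2 * j) with h | h
  · rw [Nat.choose_eq_zero_of_lt (show n + j < 3 * j by omega)]
    rw [Nat.choose_eq_zero_of_lt (show n - j < j by omega)]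
    simp
  · have h1 := Nat.choose_mul_factorial_mul_factorial (show j ≤ n by omega)
    have h2 := Nat.choose_mul_factorial_mul_factorial (show j ≤ n - j by omega)
    have h3 := Nat.choose_mul_factorial_mul_factorial (show j ≤ n + j by omega)
    have h4 := Nat.choose_mul_factorial_mul_factorial (show 3 * j ≤ n + j by omega)
    rw [show n + j - j = n by omega] at h3
    rw [show n + j - 3 * j = n - j - j by omega] at h4
    have hpos1 : 0 < (n - j - j).factorial := Nat.factorial_pos _
    have hpos2 : 0 < (n - j).factorial := Nat.factorial_pos _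
    have hpos3 : 0 < n.factorial := Nat.factorial_pos _
    have e : (n - j - j).factorial * (j.factorial ^ 3 * (n.choose j * (n - j).choose j * (n + j).choose j)) =
        (n - j - j).factorial * ((3 * j).factorial * (n + j).choose (3 * j)) := by
      have e1 : (n - j - j).factorial * (j.factorial ^ 3 * (n.choose j * (n - j).choose j * (n + j).choose j))
          * ((n - j).factorial * n.factorial) =
          (n.choose j * j.factorial * (n - j).factorial) *
          ((n - j).choose j * j.factorial * (n - j - j).factorial) *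
          ((n + j).choose j * j.factorial * n.factorial) := by ring
      rw [h1, h2, h3] at e1
      have e2 : (n - j - j).factorial * ((3 * j).factorial * (n + j).choose (3 * j)) = (n + j).factorial := by
        rw [← h4]; ring
      rw [e2]
      have hp : 0 < (n - j).factorial * n.factorial := Nat.mul_pos hpos2 hpos3
      apply Nat.eq_of_mul_eq_mul_right hp
      rw [e1]; ring
    exact Nat.eq_of_mul_eq_mul_left hpos1 e

theorem sum_choose (j N : ℕ) : ∑ n ∈ range N, (n + j).choose (3 * j) = (N + j).choose (3 * j + 1) := by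
  induction N with
  | zero => rw [Nat.choose_eq_zero_of_lt (show 0 + j < 3 * j + 1 by omega)]; simp
  | succ N ih =>
    rw [sum_range_succ, ih, show N + 1 + j = (N + j) + 1 by ring, Nat.choose_succ_succ]
    ring

theorem sum_tm (j N : ℕ) : j.factorial ^ 3 * ∑ n ∈ range N, tm n j =
    (3 * j).factorial * (N + j).choose (3 * j + 1) := by
  rw [mul_sum, Finset.sum_congr rfl (fun n _ => tm_eq n j), ← mul_sum, sum_choose]

theorem desc_eq (p j : ℕ) (h : 2 * j < p) : (p + j).descFactorial (3 * j + 1) =
    p * ((∏ i ∈ range j, (p + i + 1)) * ∏ i ∈ range (2 * j), (p - (i + 1))) := by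
  rw [Nat.descFactorial_eq_prod_range, show 3 * j + 1 = j + (2 * j + 1) by ring, Finset.prod_range_add,
    Finset.prod_range_succ']
  have e1 : ∏ x ∈ range j, (p + j - x) = ∏ i ∈ range j, (p + i + 1) := by
    rw [← Finset.prod_range_reflect]
    refine Finset.prod_congr rfl fun i hi => ?_
    rw [mem_range] at hi
    omega
  have e2 : ∏ k ∈ range (2 * j), (p + j - (j + (k + 1))) = ∏ i ∈ range (2 * j), (p - (i + 1)) := by
    refine Finset.prod_congr rfl fun i hi => ?_
    omega
  rw [e1, e2]
  rw [show p + j - (j + 0) = p by omega]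
  ring

variable {p : ℕ} [hp : Fact p.Prime]

theorem fac_ne {j : ℕ} (h : j < p) : ((j.factorial : ℕ) : ZMod p) ≠ 0 := by
  intro h0
  have := (ZMod.natCast_eq_zero_iff _ p).mp h0
  exact absurd ((hp.out.dvd_factorial).mp this) (by omega)

/-- For `2j < p` and `p ∤ 3j+1` the column sum is `p` times a number congruent
to `C(2j,j)/(3j+1)`. -/
theorem col (j : ℕ) (h : 2 * j < p) (h3 : ((3 * j + 1 : ℕ) : ZMod p) ≠ 0) :
    ∃ y : ℕ, ∑ n ∈ range p, tm n j = p * y ∧
      ((y : ℕ) : ZMod p) = c p j / (3 * (j : ZMod p) + 1) := by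
  have hj : ((j.factorial : ℕ) : ZMod p) ≠ 0 := fac_ne (by omega)
  have h1 := sum_tm j p
  have h2 : (3 * j + 1) * (j.factorial ^ 3 * ∑ n ∈ range p, tm n j) =
      p * ((∏ i ∈ range j, (p + i + 1)) * ∏ i ∈ range (2 * j), (p - (i + 1))) := by
    rw [h1, ← desc_eq p j h, Nat.descFactorial_eq_factorial_mul_choose, Nat.factorial_succ]
    ring
  have hdvd : p ∣ ∑ n ∈ range p, tm n j := by
    have hd : p ∣ (3 * j + 1) * (j.factorial ^ 3 * ∑ n ∈ range p, tm n j) := by
      rw [h2]; exact dvd_mul_right _ _
    rcases (hp.out.dvd_mul).mp hd with h4 | h4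
    · exact absurd ((ZMod.natCast_eq_zero_iff _ p).mpr h4) h3
    · rcases (hp.out.dvd_mul).mp h4 with h5 | h5
      · exact absurd ((ZMod.natCast_eq_zero_iff _ p).mpr (hp.out.dvd_of_dvd_pow h5)) hj
      · exact h5
  obtain ⟨y, hy⟩ := hdvd
  refine ⟨y, hy, ?_⟩
  rw [hy] at h2
  have h6 : (3 * j + 1) * (j.factorial ^ 3 * y) =
      (∏ i ∈ range j, (p + i + 1)) * ∏ i ∈ range (2 * j), (p - (i + 1)) := by
    apply Nat.eq_of_mul_eq_mul_left hp.out.pos
    rw [← h2]; ring
  have h7 := congrArg (fun t : ℕ => (t : ZMod p)) h6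
  push_cast at h7
  have e1 : ∏ i ∈ range j, ((p : ZMod p) + i + 1) = ((j.factorial : ℕ) : ZMod p) := by
    rw [← Finset.prod_range_add_one_eq_factorial]
    push_cast
    refine Finset.prod_congr rfl fun i _ => ?_
    rw [CharP.cast_eq_zero]; ring
  have e2 : ∏ i ∈ range (2 * j), (((p - (i + 1) : ℕ)) : ZMod p) = (((2 * j).factorial : ℕ) : ZMod p) := by
    have e3 : ∏ i ∈ range (2 * j), (((p - (i + 1) : ℕ)) : ZMod p) =
        ∏ i ∈ range (2 * j), (-1) * (((i + 1 : ℕ)) : ZMod p) := by
      refine Finset.prod_congr rfl fun i hi => ?_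
      rw [mem_range] at hi
      rw [Nat.cast_sub (by omega), CharP.cast_eq_zero]; ring
    rw [e3, Finset.prod_mul_distrib]
    simp only [Finset.prod_const, card_range]
    rw [pow_mul]
    rw [← Finset.prod_range_add_one_eq_factorial]
    push_cast
    simp
  rw [e1, e2] at h7
  have h8 : (((2 * j).factorial : ℕ) : ZMod p) = ((j.factorial : ℕ) : ZMod p) ^ 2 * c p j := by
    have := Nat.choose_mul_factorial_mul_factorial (show j ≤ 2 * j by omega)
    rw [show 2 * j - j = j by omega] at this
    unfold c
    rw [← this]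
    push_cast
    ring
  rw [h8] at h7
  have h9 : (3 * (j : ZMod p) + 1) ≠ 0 := by
    push_cast at h3; exact h3
  rw [eq_div_iff h9]
  apply mul_left_cancel₀ (pow_ne_zero 3 hj)
  linear_combination h7

/-- The main congruence in the form `C(2m,m) ∑ a ≡ 2p (mod p²)`. -/
theorem main {n m : ℕ} (hn : p = 2 * n + 1) (hm : p + 1 = 3 * m) :
    ∃ z : ℤ, (((2 * m).choose m : ℕ) : ℤ) *
      ((∑ k ∈ range p, ∑ j ∈ range (k + 1), tm k j : ℕ) : ℤ) - 2 * p = p ^ 2 * z := by
  have hp5 : 5 ≤ p := by
    have := hp.out.two_le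
    omega
  have hm1 : 1 ≤ m := by omega
  have hmn : m ≤ n := by omega
  have hcol : ∀ j ∈ range (n + 1), ∃ y : ℕ, ∑ k ∈ range p, tm k j = p * y ∧
      ((y : ℕ) : ZMod p) = c p j / (3 * (j : ZMod p) + 1) := by
    intro j hj
    rw [mem_range] at hj
    apply col j (by omega)
    intro h0
    have hd := (ZMod.natCast_eq_zero_iff _ p).mp h0
    obtain ⟨t, ht⟩ := hd
    have ht2 : t < 2 := by
      by_contra hge
      have : 2 ≤ t := by omega
      have : p * 2 ≤ p * t := Nat.mul_le_mul_left p this
      omega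
    interval_cases t
    · omega
    · omega
  choose! y hy1 hy2 using hcol
  have hA : ∑ k ∈ range p, ∑ j ∈ range (k + 1), tm k j = p * ∑ j ∈ range (n + 1), y j := by
    have s1 : ∀ k ∈ range p, ∑ j ∈ range (k + 1), tm k j = ∑ j ∈ range p, tm k j := by
      intro k hk
      rw [mem_range] at hk
      refine Finset.sum_subset (fun x hx => ?_) (fun x _ hx => ?_)
      · rw [mem_range] at hx ⊢; omega
      · rw [mem_range] at hx
        unfold tm
        rw [Nat.choose_eq_zero_of_lt (show k < x by omega)]
        simp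
    rw [Finset.sum_congr rfl s1, Finset.sum_comm]
    have s2 : ∑ j ∈ range p, ∑ k ∈ range p, tm k j = ∑ j ∈ range (n + 1), ∑ k ∈ range p, tm k j := by
      symm
      refine Finset.sum_subset (fun x hx => ?_) (fun x _ hx => ?_)
      · rw [mem_range] at hx ⊢; omega
      · rw [mem_range] at hx
        apply Finset.sum_eq_zero
        intro k hk
        rw [mem_range] at hk
        unfold tm
        rcases Nat.lt_or_ge k x with h | h
        · rw [Nat.choose_eq_zero_of_lt h]; simp
        · rw [Nat.choose_eq_zero_of_lt (show k - x < x by omega)]; simp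
    rw [s2, mul_sum]
    exact Finset.sum_congr rfl fun j hj => hy1 j hj
  have h3m : 3 * (m : ZMod p) = 1 := by
    have h := congrArg (fun t : ℕ => (t : ZMod p)) hm
    push_cast at h
    rw [CharP.cast_eq_zero] at h
    linear_combination -h
  have hT : ((∑ j ∈ range (n + 1), y j : ℕ) : ZMod p) * c p m = 2 := by
    have k1 := ksum hn (by omega : p % 3 = 2) m hm1 hmn
    have hodd : Odd (m - 1) := by
      rw [Nat.odd_iff]; omega
    have k2 := nsum (p := p) (M := m - 1) (by omega) hodd
    rw [show m - 1 + 1 = m by omega] at k2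
    have k3 : ((∑ j ∈ range (n + 1), y j : ℕ) : ZMod p) * c p m =
        ∑ j ∈ range (n + 1), ((m : ZMod p) * c p m) * c p j / ((m : ZMod p) + j) := by
      push_cast
      rw [Finset.sum_mul]
      refine Finset.sum_congr rfl fun j hj => ?_
      rw [hy2 j hj]
      rw [mem_range] at hj
      have n1 : (m : ZMod p) + j ≠ 0 := by
        have := cast_ne (p := p) (j := m + j) (by omega) (by omega)
        push_cast at this
        exact this
      have e : 3 * (j : ZMod p) + 1 = 3 * (m + j) := by linear_combination -h3m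
      have h3ne : (3 : ZMod p) ≠ 0 := by
        intro h0; rw [h0] at h3m; simp at h3m
      rw [e]
      field_simp
      linear_combination (-(c p j * c p m)) * h3m
    rw [k3, k1, k2]
    norm_num
  have hz : ((((2 * m).choose m : ℕ) : ℤ) * ((∑ j ∈ range (n + 1), y j : ℕ) : ℤ) - 2 : ℤ) ≡ 0 [ZMOD p] := by
    rw [← ZMod.intCast_eq_intCast_iff]
    push_cast
    unfold c at hT
    push_cast at hT
    linear_combination hT
  obtain ⟨z, hz⟩ := (Int.modEq_zero_iff_dvd).mp hz
  refine ⟨z, ?_⟩
  rw [hA]
  push_cast at hz ⊢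
  linear_combination (p : ℤ) * hz

end Pool.Agent.V11304.EC
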