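import Mathlib
import Pool.Agent.V11304.EC.ModP

/-!
The three term identity for `∑ C(2j,j) x^(j-m)/(j-m)`, `p = 3m+1`.
-/

namespace Pool.Agent.V11304.EC

open Finset Polynomial

theorem dpow {R : Type*} [CommRing R] (f : R[X]) (k : ℕ) :
    f * derivative (f ^ k) = C (k : R) * f ^ k * derivative f := by
  cases k with
  | zero => simp
  | succ k =>
    rw [derivative_pow]
    simp only [Nat.add_sub_cancel]
    rw [pow_succ]
    ring

variable {p : ℕ} [hp : Fact p.Prime]

/-- the three pieces -/
noncomputable def tA (p n j : ℕ) : (ZMod p)[X] := X ^ j * (1 + X) ^ (2 * (n - j))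

noncomputable def tB (p j : ℕ) : (ZMod p)[X] := (-(X * (1 + X))) ^ j

noncomputable def tG (p n j : ℕ) : (ZMod p)[X] := (-(1 + X)) ^ j * X ^ (2 * (n - j))

theorem sumA {n : ℕ} (hn : p = 2 * n + 1) :
    ∑ j ∈ range (n + 1), C (c p j) * tA p n j = (1 - X) ^ (2 * n) := by
  have h : ((1 - X : (ZMod p)[X])) ^ (2 * n) = (C (-4) * X + (1 + X) ^ 2) ^ n := by
    rw [pow_mul]
    congr 1
    simp only [map_neg]
    have : (C (4 : ZMod p)) = 4 := map_ofNat C 4
    rw [this]
    ring
  rw [h, add_pow]
  refine Finset.sum_congr rfl fun j hj => ?_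
  rw [mem_range] at hj
  rw [c_eq hn j (by omega)]
  unfold tA
  rw [pow_mul]
  simp only [map_mul, map_pow, map_natCast, mul_pow]
  ring

theorem sumB {n : ℕ} (hn : p = 2 * n + 1) :
    ∑ j ∈ range (n + 1), C (c p j) * tB p j = (1 + 2 * X) ^ (2 * n) := by
  have h : ((1 + 2 * X : (ZMod p)[X])) ^ (2 * n) = (C (-4) * (-(X * (1 + X))) + 1) ^ n := by
    rw [pow_mul]
    congr 1
    simp only [map_neg]
    have : (C (4 : ZMod p)) = 4 := map_ofNat C 4
    rw [this]
    ring
  rw [h, add_pow]
  refine Finset.sum_congr rfl fun j hj => ?_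
  rw [mem_range] at hj
  rw [c_eq hn j (by omega)]
  unfold tB
  simp only [map_mul, map_pow, map_natCast, mul_pow, one_pow]
  ring

theorem sumG {n : ℕ} (hn : p = 2 * n + 1) :
    ∑ j ∈ range (n + 1), C (c p j) * tG p n j = (X + 2) ^ (2 * n) := by
  have h : ((X + 2 : (ZMod p)[X])) ^ (2 * n) = (C (-4) * (-(1 + X)) + X ^ 2) ^ n := by
    rw [pow_mul]
    congr 1
    simp only [map_neg]
    have : (C (4 : ZMod p)) = 4 := map_ofNat C 4
    rw [this]
    ring
  rw [h, add_pow]
  refine Finset.sum_congr rfl fun j hj => ?_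
  rw [mem_range] at hj
  rw [c_eq hn j (by omega)]
  unfold tG
  rw [pow_mul]
  simp only [map_mul, map_pow, map_natCast, mul_pow]
  ring

theorem frob {n : ℕ} (hn : p = 2 * n + 1) :
    (1 - X : (ZMod p)[X]) * (1 - X) ^ (2 * n) + (1 + 2 * X) * (1 + 2 * X) ^ (2 * n)
      - (X + 2) * (X + 2) ^ (2 * n) = 0 := by
  have h2 : (2 : (ZMod p)[X]) ^ p = 2 := by
    have : (2 : (ZMod p)[X]) = C 2 := (map_ofNat C 2).symm
    rw [this, ← map_pow, ZMod.pow_card]
  rw [← pow_succ', ← pow_succ', ← pow_succ', ← hn]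
  rw [sub_pow_char, add_pow_char, add_pow_char, mul_pow, h2]
  simp only [one_pow]
  ring

/-- the coefficients -/
noncomputable def ee (p : ℕ) [Fact p.Prime] (m j : ℕ) : ZMod p := c p j / ((j : ZMod p) - m)

noncomputable def KK (p : ℕ) [Fact p.Prime] (n m : ℕ) : (ZMod p)[X] :=
  ∑ j ∈ range (n + 1), C (ee p m j) * (tA p n j + tB p j + tG p n j)

theorem ode {n m : ℕ} (hn : p = 2 * n + 1) (hm : p = 3 * m + 1) :
    X * (1 + X) * derivative (KK p n m) = C (m : ZMod p) * (1 + 2 * X) * KK p n m := by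
  have hev : Even m := by
    rw [Nat.even_iff]; omega
  have hmn : m ≤ n := by omega
  have h2n : 2 * (n : ZMod p) + 1 = 0 := by
    have : ((2 * n + 1 : ℕ) : ZMod p) = 0 := by rw [← hn]; exact ZMod.natCast_self p
    push_cast at this
    exact this
  have h3m : 3 * (m : ZMod p) + 1 = 0 := by
    have : ((3 * m + 1 : ℕ) : ZMod p) = 0 := by rw [← hm]; exact ZMod.natCast_self p
    push_cast at this
    exact this
  have hC2n : 2 * C (n : ZMod p) + 1 = 0 := by
    have := congrArg (C : ZMod p → (ZMod p)[X]) h2n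
    simp only [map_add, map_mul, map_one, map_zero] at this
    have h2 : (C (2 : ZMod p)) = 2 := map_ofNat C 2
    rw [h2] at this
    exact this
  have hC3m : 3 * C (m : ZMod p) + 1 = 0 := by
    have := congrArg (C : ZMod p → (ZMod p)[X]) h3m
    simp only [map_add, map_mul, map_one, map_zero] at this
    have h2 : (C (3 : ZMod p)) = 3 := map_ofNat C 3
    rw [h2] at this
    exact this
  -- the single terms
  have tA' : ∀ j ≤ n, X * (1 + X) * derivative (tA p n j) = C (m : ZMod p) * (1 + 2 * X) * tA p n j +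
      C ((j : ZMod p) - m) * ((1 - X) * tA p n j) := by
    intro j hj
    unfold tA
    have d1 := dpow (X : (ZMod p)[X]) j
    have d2 := dpow (1 + X : (ZMod p)[X]) (2 * (n - j))
    have hc : (C ((2 * (n - j) : ℕ) : ZMod p)) = 2 * C (n : ZMod p) - 2 * C (j : ZMod p) := by
      rw [Nat.cast_mul, Nat.cast_sub hj, map_mul, map_sub, Nat.cast_ofNat, map_ofNat C 2]
      ring
    rw [hc] at d2
    simp only [derivative_X, derivative_add, derivative_one, zero_add, mul_one] at d1 d2
    rw [derivative_mul]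
    rw [map_sub]
    linear_combination (1 + X) * (1 + X) ^ (2 * (n - j)) * d1 + X * X ^ j * d2 +
      (X ^ j * (1 + X) ^ (2 * (n - j)) * X) * hC2n - (X ^ j * (1 + X) ^ (2 * (n - j)) * X) * hC3m
  have tB' : ∀ j ≤ n, X * (1 + X) * derivative (tB p j) = C (m : ZMod p) * (1 + 2 * X) * tB p j +
      C ((j : ZMod p) - m) * ((1 + 2 * X) * tB p j) := by
    intro j hj
    unfold tB
    have d1 := dpow (-(X * (1 + X)) : (ZMod p)[X]) j
    have e : derivative (-(X * (1 + X)) : (ZMod p)[X]) = -(1 + 2 * X) := by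
      simp only [derivative_neg, derivative_mul, derivative_X, derivative_add, derivative_one, zero_add]
      ring
    rw [e] at d1
    rw [map_sub]
    linear_combination -d1
  have tG' : ∀ j ≤ n, X * (1 + X) * derivative (tG p n j) = C (m : ZMod p) * (1 + 2 * X) * tG p n j +
      C ((j : ZMod p) - m) * (-((X + 2) * tG p n j)) := by
    intro j hj
    unfold tG
    have d1 := dpow (-(1 + X) : (ZMod p)[X]) j
    have d2 := dpow (X : (ZMod p)[X]) (2 * (n - j))
    have hc : (C ((2 * (n - j) : ℕ) : ZMod p)) = 2 * C (n : ZMod p) - 2 * C (j : ZMod p) := by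
      rw [Nat.cast_mul, Nat.cast_sub hj, map_mul, map_sub, Nat.cast_ofNat, map_ofNat C 2]
      ring
    rw [hc] at d2
    have e : derivative (-(1 + X) : (ZMod p)[X]) = -1 := by
      simp only [derivative_neg, derivative_X, derivative_add, derivative_one, zero_add]
    rw [e] at d1
    simp only [derivative_X, mul_one] at d2
    rw [derivative_mul]
    rw [map_sub]
    linear_combination -X * X ^ (2 * (n - j)) * d1 + (1 + X) * (-(1 + X)) ^ j * d2 +
      ((-(1 + X)) ^ j * X ^ (2 * (n - j)) * (1 + X)) * hC2n -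
      ((-(1 + X)) ^ j * X ^ (2 * (n - j)) * (1 + X)) * hC3m
  have hne : ∀ j ≤ n, j ≠ m → (j : ZMod p) - m ≠ 0 := by
    intro j hj hjm h0
    have h1 : (j : ZMod p) = m := by linear_combination h0
    rw [ZMod.natCast_eq_natCast_iff'] at h1
    rw [Nat.mod_eq_of_lt (by omega), Nat.mod_eq_of_lt (by omega)] at h1
    exact hjm h1
  have hall : ∀ j ∈ range (n + 1), X * (1 + X) * (C (ee p m j) * derivative (tA p n j + tB p j + tG p n j)) =
      C (m : ZMod p) * (1 + 2 * X) * (C (ee p m j) * (tA p n j + tB p j + tG p n j)) +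
      ((1 - X) * (C (c p j) * tA p n j) + (1 + 2 * X) * (C (c p j) * tB p j)
        - (X + 2) * (C (c p j) * tG p n j)) := by
    intro j hj
    rw [mem_range] at hj
    have hjn : j ≤ n := by omega
    rw [derivative_add, derivative_add]
    by_cases hjm : j = m
    · subst hjm
      have e0 : ee p j j = 0 := by simp [ee]
      have eA : tA p n j = (X * (1 + X)) ^ j := by
        unfold tA
        rw [show 2 * (n - j) = j by omega, mul_pow]
      have eB : tB p j = (X * (1 + X)) ^ j := by
        unfold tB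
        rw [neg_pow, hev.neg_one_pow, one_mul]
      have eG : tG p n j = (X * (1 + X)) ^ j := by
        unfold tG
        rw [show 2 * (n - j) = j by omega, neg_pow, hev.neg_one_pow, one_mul, mul_pow]
        ring
      rw [e0, eA, eB, eG]
      simp only [map_zero]
      ring
    · have hec : C (ee p m j) * C ((j : ZMod p) - m) = C (c p j) := by
        rw [← map_mul]
        unfold ee
        rw [div_mul_cancel₀ _ (hne j hjn hjm)]
      linear_combination C (ee p m j) * (tA' j hjn + tB' j hjn + tG' j hjn) +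
        ((1 - X) * tA p n j + (1 + 2 * X) * tB p j - (X + 2) * tG p n j) * hec
  unfold KK
  rw [derivative_sum, mul_sum, mul_sum]
  simp only [derivative_C_mul]
  rw [Finset.sum_congr rfl hall, Finset.sum_add_distrib]
  have hA : ∑ x ∈ range (n + 1), (1 - X) * (C (c p x) * tA p n x) = (1 - X) * (1 - X) ^ (2 * n) := by
    rw [← mul_sum, sumA hn]
  have hB : ∑ x ∈ range (n + 1), (1 + 2 * X) * (C (c p x) * tB p x) =
      (1 + 2 * X) * (1 + 2 * X) ^ (2 * n) := by
    rw [← mul_sum, sumB hn]
  have hG : ∑ x ∈ range (n + 1), (X + 2) * (C (c p x) * tG p n x) = (X + 2) * (X + 2) ^ (2 * n) := by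
    rw [← mul_sum, sumG hn]
  rw [Finset.sum_sub_distrib, Finset.sum_add_distrib, hA, hB, hG, frob hn, add_zero]

theorem ode_coeff (W : (ZMod p)[X]) (μ : ZMod p)
    (h : X * (1 + X) * derivative W = C μ * (1 + 2 * X) * W) (i : ℕ) :
    (((i + 1 : ℕ) : ZMod p) - μ) * W.coeff (i + 1) = (2 * μ - i) * W.coeff i := by
  have h1 : X * derivative W + X * (X * derivative W) = C μ * W + X * (C (2 * μ) * W) := by
    rw [map_mul, map_ofNat C 2]
    linear_combination h
  have h2 := congrArg (fun P => P.coeff (i + 1)) h1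
  simp only [coeff_add, coeff_X_mul, coeff_C_mul, coeff_derivative] at h2
  rcases i with _ | i
  · simp only [zero_add, mul_coeff_zero, coeff_X_zero, zero_mul, add_zero] at h2
    push_cast at h2 ⊢
    linear_combination h2
  · rw [coeff_X_mul, coeff_derivative] at h2
    push_cast at h2 ⊢
    linear_combination h2

theorem uniq {m : ℕ} (hm0 : 0 < m) (hmp : m < p) (W : (ZMod p)[X])
    (h : X * (1 + X) * derivative W = C (m : ZMod p) * (1 + 2 * X) * W)
    (hd : W.natDegree < p) (hWm : W.coeff m = 0) : W = 0 := by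
  have hW : ∀ i, i < p → W.coeff i = 0 := by
    intro i
    induction i with
    | zero =>
      intro _
      have h2 := congrArg (fun P => P.coeff 0) h
      simp only [mul_coeff_zero, coeff_X_zero, zero_mul, coeff_C_zero, coeff_add, coeff_one_zero,
        mul_zero, add_zero, mul_one] at h2
      have hm : (m : ZMod p) ≠ 0 := cast_ne hm0 hmp
      exact (mul_eq_zero.mp h2.symm).resolve_left hm
    | succ i ih =>
      intro hi
      have h2 := ode_coeff W m h i
      rw [ih (by omega), mul_zero] at h2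
      rcases mul_eq_zero.mp h2 with h3 | h3
      · have h4 : ((i + 1 : ℕ) : ZMod p) = m := by linear_combination h3
        rw [ZMod.natCast_eq_natCast_iff', Nat.mod_eq_of_lt hi, Nat.mod_eq_of_lt hmp] at h4
        rw [h4]; exact hWm
      · exact h3
  ext i
  rw [coeff_zero]
  rcases Nat.lt_or_ge i p with hi | hi
  · exact hW i hi
  · exact coeff_eq_zero_of_natDegree_lt (by omega)

theorem deg {n m : ℕ} : (KK p n m).natDegree ≤ 2 * n := by
  unfold KK
  apply natDegree_sum_le_of_forall_le
  intro j hj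
  rw [mem_range] at hj
  have d1 : (1 + X : (ZMod p)[X]).natDegree ≤ 1 := by
    refine (natDegree_add_le _ _).trans ?_
    simp
  have dA : (tA p n j).natDegree ≤ 2 * n := by
    unfold tA
    refine natDegree_mul_le.trans ?_
    have a1 : (X ^ j : (ZMod p)[X]).natDegree ≤ j := natDegree_X_pow_le j
    have a2 : ((1 + X : (ZMod p)[X]) ^ (2 * (n - j))).natDegree ≤ 2 * (n - j) * 1 :=
      natDegree_pow_le_of_le _ d1
    omega
  have dB : (tB p j).natDegree ≤ 2 * n := by
    unfold tB
    have a0 : (-(X * (1 + X)) : (ZMod p)[X]).natDegree ≤ 2 := by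
      rw [natDegree_neg]
      refine natDegree_mul_le.trans ?_
      have := natDegree_X_le (R := ZMod p)
      omega
    have a2 := natDegree_pow_le_of_le j a0
    omega
  have dG : (tG p n j).natDegree ≤ 2 * n := by
    unfold tG
    refine natDegree_mul_le.trans ?_
    have a0 : (-(1 + X) : (ZMod p)[X]).natDegree ≤ 1 := by
      rw [natDegree_neg]; exact d1
    have a1 := natDegree_pow_le_of_le j a0
    have a2 : (X ^ (2 * (n - j)) : (ZMod p)[X]).natDegree ≤ 2 * (n - j) := natDegree_X_pow_le _
    omega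
  refine (natDegree_C_mul_le _ _).trans ?_
  exact natDegree_add_le_of_degree_le (natDegree_add_le_of_degree_le dA dB) dG

theorem KK_eq {n m : ℕ} (hn : p = 2 * n + 1) (hm : p = 3 * m + 1) :
    KK p n m = C ((KK p n m).coeff m) * (X * (1 + X)) ^ m := by
  have hp2 := hp.out.two_le
  have hd : (C ((KK p n m).coeff m) * (X * (1 + X)) ^ m).natDegree ≤ 2 * n := by
    refine (natDegree_C_mul_le _ _).trans ?_
    have a0 : ((X * (1 + X)) : (ZMod p)[X]).natDegree ≤ 2 := by
      refine natDegree_mul_le.trans ?_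
      have := natDegree_X_le (R := ZMod p)
      have d1 : (1 + X : (ZMod p)[X]).natDegree ≤ 1 := by
        refine (natDegree_add_le _ _).trans ?_
        simp
      omega
    have a2 := natDegree_pow_le_of_le m a0
    omega
  rw [← sub_eq_zero]
  apply uniq (m := m) (by omega) (by omega)
  · have h1 := ode hn hm
    have h2 := dpow (X * (1 + X) : (ZMod p)[X]) m
    have e : derivative ((X * (1 + X)) : (ZMod p)[X]) = (1 + 2 * X) := by
      simp only [derivative_mul, derivative_X, derivative_add, derivative_one, zero_add]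
      ring
    rw [e] at h2
    rw [derivative_sub, derivative_C_mul]
    linear_combination h1 - C ((KK p n m).coeff m) * h2
  · have := natDegree_sub_le_of_le (deg (p := p) (n := n) (m := m)) hd
    simp only [max_self] at this
    omega
  · rw [coeff_sub, coeff_C_mul, mul_pow, coeff_X_pow_mul']
    simp [coeff_one_add_X_pow]

theorem choose_add_p (b i : ℕ) (hi : i < p) : (((p + b).choose i : ℕ) : ZMod p) = (b.choose i : ℕ) := by
  have h1 : ((1 + X : (ZMod p)[X])) ^ (p + b) = (1 + X) ^ b + X ^ p * (1 + X) ^ b := by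
    rw [pow_add, add_pow_char, one_pow]
    ring
  have h2 := congrArg (fun P => P.coeff i) h1
  simp only [coeff_one_add_X_pow, coeff_add, coeff_X_pow_mul'] at h2
  rw [if_neg (by omega), add_zero] at h2
  exact h2

theorem choose_refl (i : ℕ) (hi0 : 0 < i) (hi : 2 * i ≤ p) :
    2 * (((p - i).choose i : ℕ) : ZMod p) = (-1) ^ i * c p i := by
  obtain ⟨s, rfl⟩ : ∃ s, i = s + 1 := ⟨i - 1, by omega⟩
  have hp2 := hp.out.two_le
  have h1 : ((p - (s + 1)).descFactorial (s + 1) : ZMod p) =
      (-1) ^ (s + 1) * ((s + 1).ascFactorial (s + 1) : ZMod p) := by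
    rw [Nat.descFactorial_eq_prod_range, Nat.ascFactorial_eq_prod_range]
    push_cast
    have : ((-1 : ZMod p)) ^ (s + 1) = ∏ i ∈ range (s + 1), (-1) := by simp
    rw [this, ← Finset.prod_mul_distrib]
    refine Finset.prod_congr rfl fun i hi => ?_
    rw [mem_range] at hi
    rw [Nat.cast_sub (by omega), Nat.cast_sub (by omega)]
    simp only [CharP.cast_eq_zero]
    push_cast
    ring
  rw [Nat.descFactorial_eq_factorial_mul_choose, Nat.ascFactorial_eq_factorial_mul_choose'] at h1
  have hf : (((s + 1).factorial : ℕ) : ZMod p) ≠ 0 := by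
    intro h0
    have := (ZMod.natCast_eq_zero_iff _ p).mp h0
    exact absurd ((hp.out.dvd_factorial).mp this) (by omega)
  push_cast at h1
  have h2 : (((p - (s + 1)).choose (s + 1) : ℕ) : ZMod p) =
      (-1) ^ (s + 1) * (((s + 1 + (s + 1) - 1).choose (s + 1) : ℕ) : ZMod p) := by
    apply mul_left_cancel₀ hf
    linear_combination h1
  rw [h2]
  unfold c
  have e1 : (2 * (s + 1)).choose (s + 1) = 2 * (2 * s + 1).choose (s + 1) := by
    have e : (2 * s + 1 + 1).choose (s + 1) = (2 * s + 1).choose s + (2 * s + 1).choose (s + 1) :=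
      Nat.choose_succ_succ (2 * s + 1) s
    have e2 : (2 * s + 1).choose (s + 1) = (2 * s + 1).choose s := Nat.choose_symm_half s
    rw [show 2 * (s + 1) = 2 * s + 1 + 1 by ring, e, ← e2]
    ring
  rw [show s + 1 + (s + 1) - 1 = 2 * s + 1 by omega, e1]
  push_cast
  ring

theorem kappa {n m : ℕ} (hn : p = 2 * n + 1) (hm : p = 3 * m + 1) :
    2 * (KK p n m).coeff m = 3 * ∑ j ∈ range m, ee p m j * c p (m - j) := by
  have hp2 := hp.out.two_le
  have hmn : m ≤ n := by omega
  have hev : Even m := by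
    rw [Nat.even_iff]; omega
  have k1 : (KK p n m * (1 + X) ^ (2 * m + 1)).coeff m = (KK p n m).coeff m := by
    conv_lhs => rw [KK_eq hn hm]
    rw [mul_assoc, coeff_C_mul, mul_pow, mul_assoc, coeff_X_pow_mul', ← pow_add]
    simp [coeff_one_add_X_pow]
  have cA : ∀ j, j < m → (tA p n j * (1 + X) ^ (2 * m + 1)).coeff m = c p (m - j) := by
    intro j hj
    unfold tA
    rw [mul_assoc, ← pow_add, coeff_X_pow_mul', if_pos hj.le, coeff_one_add_X_pow]
    rw [show 2 * (n - j) + (2 * m + 1) = p + 2 * (m - j) by omega, choose_add_p _ _ (by omega)]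
    rfl
  have cA0 : ∀ j, m < j → (tA p n j * (1 + X) ^ (2 * m + 1)).coeff m = 0 := by
    intro j hj
    unfold tA
    rw [mul_assoc, ← pow_add, coeff_X_pow_mul', if_neg (by omega)]
  have eB : ∀ j, tB p j * (1 + X) ^ (2 * m + 1) = C ((-1) ^ j) * (X ^ j * (1 + X) ^ (j + (2 * m + 1))) := by
    intro j
    unfold tB
    rw [neg_pow, mul_pow, pow_add (1 + X) j, map_pow, map_neg, map_one]
    ring
  have cB : ∀ j, j < m → 2 * (tB p j * (1 + X) ^ (2 * m + 1)).coeff m = c p (m - j) := by
    intro j hj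
    rw [eB, coeff_C_mul, coeff_X_pow_mul', if_pos hj.le, coeff_one_add_X_pow]
    rw [show j + (2 * m + 1) = p - (m - j) by omega]
    have h := choose_refl (p := p) (m - j) (by omega) (by omega)
    have h5 : (-1 : ZMod p) ^ j * (-1) ^ (m - j) = 1 := by
      rw [← pow_add, show j + (m - j) = m by omega, hev.neg_one_pow]
    linear_combination (-1) ^ j * h + c p (m - j) * h5
  have cB0 : ∀ j, m < j → (tB p j * (1 + X) ^ (2 * m + 1)).coeff m = 0 := by
    intro j hj
    rw [eB, coeff_C_mul, coeff_X_pow_mul', if_neg (by omega), mul_zero]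
  have eG : ∀ j, tG p n j * (1 + X) ^ (2 * m + 1) =
      C ((-1) ^ j) * (X ^ (2 * (n - j)) * (1 + X) ^ (j + (2 * m + 1))) := by
    intro j
    unfold tG
    rw [neg_pow, pow_add (1 + X) j, map_pow, map_neg, map_one]
    ring
  have cG : ∀ j, j < m → (tG p n j * (1 + X) ^ (2 * m + 1)).coeff m = 0 := by
    intro j hj
    rw [eG, coeff_C_mul, coeff_X_pow_mul', if_neg (by omega), mul_zero]
  have cG0 : ∀ j, m < j → j ≤ n → (tG p n j * (1 + X) ^ (2 * m + 1)).coeff m = 0 := by
    intro j hj hjn
    rw [eG, coeff_C_mul, coeff_X_pow_mul', if_pos (by omega), coeff_one_add_X_pow]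
    rw [show j + (2 * m + 1) = p + (j - m) by omega, choose_add_p _ _ (by omega)]
    rw [Nat.choose_eq_zero_of_lt (by omega)]
    simp
  have k2 : 2 * (KK p n m * (1 + X) ^ (2 * m + 1)).coeff m =
      ∑ j ∈ range (n + 1), ee p m j * (2 * ((tA p n j * (1 + X) ^ (2 * m + 1)).coeff m +
        (tB p j * (1 + X) ^ (2 * m + 1)).coeff m + (tG p n j * (1 + X) ^ (2 * m + 1)).coeff m)) := by
    unfold KK
    rw [Finset.sum_mul, finsetSum_coeff, mul_sum]
    refine Finset.sum_congr rfl fun j _ => ?_
    rw [mul_assoc, coeff_C_mul, add_mul, add_mul, coeff_add, coeff_add]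
    ring
  rw [k1] at k2
  rw [k2, mul_sum]
  symm
  have s1 : ∑ j ∈ range m, 3 * (ee p m j * c p (m - j)) = ∑ j ∈ range m,
      ee p m j * (2 * ((tA p n j * (1 + X) ^ (2 * m + 1)).coeff m +
        (tB p j * (1 + X) ^ (2 * m + 1)).coeff m + (tG p n j * (1 + X) ^ (2 * m + 1)).coeff m)) := by
    refine Finset.sum_congr rfl fun j hj => ?_
    rw [mem_range] at hj
    rw [cA j hj, cG j hj]
    linear_combination -(ee p m j) * cB j hj
  rw [s1]
  refine Finset.sum_subset (fun x hx => ?_) (fun j hj hj2 => ?_)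
  · rw [mem_range] at hx ⊢; omega
  · rw [mem_range] at hj hj2
    rcases Nat.lt_or_ge m j with h | h
    · rw [cA0 j h, cB0 j h, cG0 j h (by omega)]
      ring
    · have : j = m := by omega
      subst this
      have e0 : ee p j j = 0 := by simp [ee]
      rw [e0, zero_mul]

end Pool.Agent.V11304.EC
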