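import Mathlib
import Pool.Agent.V11304.EC.Three
import Pool.Agent.V11304.EC.Asum

/-!
The sum `∑_{j ≠ m} C(2j,j)/(j-m)` vanishes modulo `p = 3m+1`.
-/

namespace Pool.Agent.V11304.EC

open Finset Polynomial

variable {p : ℕ} [hp : Fact p.Prime]

/-- `∑ C(2j,j) X^j`. -/
noncomputable def ff (p n : ℕ) : (ZMod p)[X] := ∑ j ∈ range (n + 1), C (c p j) * X ^ j

/-- `∑ C(2j,j)/j X^j`. -/
noncomputable def PP (p : ℕ) [Fact p.Prime] (n : ℕ) : (ZMod p)[X] :=
  ∑ j ∈ range (n + 1), C (c p j / (j : ZMod p)) * X ^ j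

theorem ff_coeff {n : ℕ} (i : ℕ) (hi : i ≤ n) : (ff p n).coeff i = c p i := by
  unfold ff
  rw [finsetSum_coeff]
  simp only [coeff_C_mul_X_pow]
  rw [Finset.sum_ite_eq, if_pos (mem_range.mpr (by omega))]

theorem PP_coeff {n : ℕ} (i : ℕ) (hi : i ≤ n) : (PP p n).coeff i = c p i / i := by
  unfold PP
  rw [finsetSum_coeff]
  simp only [coeff_C_mul_X_pow]
  rw [Finset.sum_ite_eq, if_pos (mem_range.mpr (by omega))]

theorem ff_eq {n : ℕ} (hn : p = 2 * n + 1) : ff p n = (1 - 4 * X) ^ n := by
  have h : ((1 - 4 * X : (ZMod p)[X])) = C (-4) * X + 1 := by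
    rw [map_neg, map_ofNat C 4]
    ring
  rw [h, add_pow]
  unfold ff
  refine Finset.sum_congr rfl fun j hj => ?_
  rw [mem_range] at hj
  rw [c_eq hn j (by omega)]
  simp only [map_mul, map_pow, map_natCast, mul_pow, one_pow]
  ring

theorem Yode {n : ℕ} (hn : p = 2 * n + 1) :
    (1 - 4 * X) * (X * derivative (ff p n * PP p n)) = 2 * X * (ff p n * PP p n)
      + (1 - 4 * X ^ p) - (1 - 4 * X) * ff p n := by
  have h2n : 2 * (n : ZMod p) + 1 = 0 := by
    have : ((2 * n + 1 : ℕ) : ZMod p) = 0 := by rw [← hn]; exact ZMod.natCast_self p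
    push_cast at this
    exact this
  have hC2n : 2 * C (n : ZMod p) + 1 = 0 := by
    have := congrArg (C : ZMod p → (ZMod p)[X]) h2n
    simp only [map_add, map_mul, map_one, map_zero] at this
    have h2 : (C (2 : ZMod p)) = 2 := map_ofNat C 2
    rw [h2] at this
    exact this
  have d1 : (1 - 4 * X) * derivative (ff p n) = 2 * ff p n := by
    rw [ff_eq hn]
    have d := dpow (1 - 4 * X : (ZMod p)[X]) n
    have e : derivative (1 - 4 * X : (ZMod p)[X]) = -4 := by
      have h4 : (4 : (ZMod p)[X]) = C 4 := (map_ofNat C 4).symm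
      rw [h4]
      simp
    rw [e] at d
    linear_combination d - 2 * (1 - 4 * X) ^ n * hC2n
  have d2 : X * derivative (PP p n) = ff p n - 1 := by
    have e1 : ff p n = ∑ j ∈ range n, C (c p (j + 1)) * X ^ (j + 1) + 1 := by
      unfold ff
      rw [Finset.sum_range_succ']
      simp [c_zero]
    have e2 : PP p n = ∑ j ∈ range n, C (c p (j + 1) / ((j + 1 : ℕ) : ZMod p)) * X ^ (j + 1) := by
      unfold PP
      rw [Finset.sum_range_succ']
      simp
    rw [e1, e2, derivative_sum, mul_sum, add_sub_cancel_right]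
    refine Finset.sum_congr rfl fun j hj => ?_
    rw [mem_range] at hj
    rw [derivative_C_mul, derivative_X_pow]
    have hne : ((j + 1 : ℕ) : ZMod p) ≠ 0 := cast_ne (by omega) (by omega)
    have e3 : C (c p (j + 1) / ((j + 1 : ℕ) : ZMod p)) * C ((j + 1 : ℕ) : ZMod p) = C (c p (j + 1)) := by
      rw [← map_mul, div_mul_cancel₀ _ hne]
    simp only [Nat.add_sub_cancel]
    linear_combination X ^ (j + 1) * e3
  have d3 : (1 - 4 * X) * (ff p n * ff p n) = 1 - 4 * X ^ p := by
    rw [ff_eq hn]
    have : (1 - 4 * X : (ZMod p)[X]) * ((1 - 4 * X) ^ n * (1 - 4 * X) ^ n) = (1 - 4 * X) ^ p := by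
      rw [← pow_add, ← pow_succ']
      congr 1
      omega
    rw [this, sub_pow_char, mul_pow]
    have h4 : (4 : (ZMod p)[X]) ^ p = 4 := by
      have : (4 : (ZMod p)[X]) = C 4 := (map_ofNat C 4).symm
      rw [this, ← map_pow, ZMod.pow_card]
    rw [h4, one_pow]
  rw [derivative_mul]
  linear_combination X * PP p n * d1 + (1 - 4 * X) * ff p n * d2 + d3

/-- harmonic numbers -/
noncomputable def Hs (p : ℕ) [Fact p.Prime] (k : ℕ) : ZMod p := ∑ i ∈ range k, 1 / ((i : ZMod p) + 1)

theorem Y_coeff {n : ℕ} (hn : p = 2 * n + 1) (k : ℕ) (hk : k ≤ n) :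
    (ff p n * PP p n).coeff k = 2 * c p k * (Hs p (2 * k) - Hs p k) := by
  induction k with
  | zero =>
    rw [mul_coeff_zero, PP_coeff 0 (by omega)]
    simp
  | succ k ih =>
    have h1 := Yode hn
    have h2 : X * derivative (ff p n * PP p n) - X * (C 4 * (X * derivative (ff p n * PP p n))) =
        X * (C 2 * (ff p n * PP p n)) + (1 - C 4 * X ^ p) - (ff p n - X * (C 4 * ff p n)) := by
      rw [map_ofNat C 4, map_ofNat C 2]
      linear_combination h1
    have h3 := congrArg (fun P => P.coeff (k + 1)) h2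
    have hp2 := hp.out.two_le
    have e1 : (1 - C 4 * X ^ p : (ZMod p)[X]).coeff (k + 1) = 0 := by
      rw [coeff_sub, coeff_C_mul_X_pow, if_neg (by omega), coeff_one, if_neg (by omega)]
      simp
    have e2 : (X * derivative (ff p n * PP p n)).coeff k = k * (ff p n * PP p n).coeff k := by
      rcases k with _ | k
      · simp
      · rw [coeff_X_mul, coeff_derivative]
        push_cast
        ring
    simp only [coeff_add, coeff_sub, coeff_X_mul, coeff_C_mul] at h3
    rw [coeff_sub] at e1
    rw [e2, coeff_derivative, ff_coeff _ (by omega), ff_coeff _ (by omega)] at h3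
    rw [coeff_C_mul] at e1
    rw [e1, ih (by omega)] at h3
    have hne : (k : ZMod p) + 1 ≠ 0 := cast_succ_ne (by omega)
    have hne2 : 2 * (k : ZMod p) + 1 ≠ 0 := by
      have := cast_ne (p := p) (j := 2 * k + 1) (by omega) (by omega)
      push_cast at this
      exact this
    have h2ne : (2 : ZMod p) ≠ 0 := by
      have := cast_ne (p := p) (j := 2) (by omega) (by omega)
      exact_mod_cast this
    have hH : Hs p (2 * (k + 1)) - Hs p (k + 1) = Hs p (2 * k) - Hs p k + 1 / (2 * k + 1) -
        1 / (2 * (k + 1)) := by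
      unfold Hs
      rw [show 2 * (k + 1) = 2 * k + 1 + 1 by ring, Finset.sum_range_succ, Finset.sum_range_succ,
        Finset.sum_range_succ]
      push_cast
      have : 2 * (k : ZMod p) + 1 + 1 ≠ 0 := by
        have h : 2 * (k : ZMod p) + 1 + 1 = 2 * (k + 1) := by ring
        rw [h]; exact mul_ne_zero h2ne hne
      field_simp
      ring
    have hc := c_succ (p := p) k
    rw [hH]
    apply mul_left_cancel₀ hne
    have h4 : ((k : ZMod p) + 1) * (ff p n * PP p n).coeff (k + 1) =
        (4 * k + 2) * (2 * c p k * (Hs p (2 * k) - Hs p k)) - (c p (k + 1) - 4 * c p k) := by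
      linear_combination h3
    rw [h4]
    have h5 : (1 / (2 * (k : ZMod p) + 1)) * (2 * k + 1) = 1 := by field_simp
    have h6 : (1 / (2 * ((k : ZMod p) + 1))) * (2 * (k + 1)) = 1 := by field_simp
    linear_combination (-2 * (Hs p (2 * k) - Hs p k + 1 / (2 * k + 1))) * hc
      - 4 * c p k * h5 + c p (k + 1) * h6

theorem H_zero {m : ℕ} (hm : p = 3 * m + 1) : Hs p (2 * m) - Hs p m = 0 := by
  have hp2 := hp.out.two_le
  have hev : p ≠ 2 := by omega
  have h2ne : (2 : ZMod p) ≠ 0 := by
    have := cast_ne (p := p) (j := 2) (by omega) (by omega)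
    exact_mod_cast this
  have h3m : 3 * (m : ZMod p) + 1 = 0 := by
    have : ((3 * m + 1 : ℕ) : ZMod p) = 0 := by rw [← hm]; exact ZMod.natCast_self p
    push_cast at this
    exact this
  have h1 : Hs p (2 * m) - Hs p m = ∑ i ∈ range m, 1 / ((m : ZMod p) + i + 1) := by
    unfold Hs
    rw [two_mul, Finset.sum_range_add, add_sub_cancel_left]
    refine Finset.sum_congr rfl fun i _ => ?_
    push_cast
    ring
  have h2 : ∑ i ∈ range m, 1 / ((m : ZMod p) + i + 1) = -∑ i ∈ range m, 1 / ((m : ZMod p) + i + 1) := by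
    conv_lhs => rw [← Finset.sum_range_reflect]
    rw [← Finset.sum_neg_distrib]
    refine Finset.sum_congr rfl fun i hi => ?_
    rw [mem_range] at hi
    have e : (m : ZMod p) + ((m - 1 - i : ℕ) : ZMod p) + 1 = -((m : ZMod p) + i + 1) := by
      rw [Nat.cast_sub (by omega), Nat.cast_sub (by omega)]
      push_cast
      linear_combination h3m
    rw [e, div_neg]
  rw [h1]
  have h3 : 2 * ∑ i ∈ range m, 1 / ((m : ZMod p) + i + 1) = 0 := by linear_combination h2
  exact (mul_eq_zero.mp h3).resolve_left h2ne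

theorem kappa_zero {n m : ℕ} (hn : p = 2 * n + 1) (hm : p = 3 * m + 1) :
    (KK p n m).coeff m = 0 := by
  have hp2 := hp.out.two_le
  have h2ne : (2 : ZMod p) ≠ 0 := by
    have := cast_ne (p := p) (j := 2) (by omega) (by omega)
    exact_mod_cast this
  have h1 := kappa hn hm
  have h2 : ∑ j ∈ range m, ee p m j * c p (m - j) = -(ff p n * PP p n).coeff m := by
    rw [coeff_mul, Finset.Nat.sum_antidiagonal_eq_sum_range_succ
      (fun i j => (ff p n).coeff i * (PP p n).coeff j), Finset.sum_range_succ]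
    have e0 : (ff p n).coeff m * (PP p n).coeff (m - m) = 0 := by
      rw [Nat.sub_self, PP_coeff 0 (by omega)]
      simp
    rw [e0, add_zero, ← Finset.sum_neg_distrib]
    refine Finset.sum_congr rfl fun j hj => ?_
    rw [mem_range] at hj
    rw [ff_coeff j (by omega), PP_coeff (m - j) (by omega)]
    unfold ee
    rw [Nat.cast_sub hj.le]
    rw [show ((j : ZMod p) - m) = -((m : ZMod p) - j) by ring, div_neg]
    ring
  rw [h2, Y_coeff hn m (by omega), H_zero hm] at h1
  have h3 : 2 * (KK p n m).coeff m = 0 := by rw [h1]; ring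
  exact (mul_eq_zero.mp h3).resolve_left h2ne

theorem exists_omega {m : ℕ} (hm : p = 3 * m + 1) : ∃ w : ZMod p, w ^ 2 + w + 1 = 0 := by
  have hc : Fintype.card (ZMod p)ˣ = 3 * m := by
    rw [ZMod.card_units]; omega
  have : Fact (Nat.Prime 3) := ⟨Nat.prime_three⟩
  obtain ⟨u, hu⟩ := exists_prime_orderOf_dvd_card (G := (ZMod p)ˣ) 3 (by rw [hc]; exact dvd_mul_right _ _)
  have h3 : u ^ 3 = 1 := by rw [← hu]; exact pow_orderOf_eq_one u
  have h1 : u ≠ 1 := by
    intro h
    rw [h, orderOf_one] at hu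
    omega
  refine ⟨(u : ZMod p), ?_⟩
  have h4 : ((u : ZMod p)) ^ 3 = 1 := by
    have := congrArg (fun t : (ZMod p)ˣ => (t : ZMod p)) h3
    push_cast at this
    exact this
  have h5 : (u : ZMod p) - 1 ≠ 0 := by
    intro h
    apply h1
    apply Units.ext
    push_cast
    linear_combination h
  apply mul_left_cancel₀ h5
  linear_combination h4

/-- The sum vanishes. -/
theorem esum {n m : ℕ} (hn : p = 2 * n + 1) (hm : p = 3 * m + 1) :
    ∑ j ∈ range (n + 1), ee p m j = 0 := by
  have hp2 := hp.out.two_le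
  obtain ⟨w, hw⟩ := exists_omega hm
  have h0 : KK p n m = 0 := by
    rw [KK_eq hn hm, kappa_zero hn hm]
    simp
  have h1 := congrArg (fun P => P.eval w) h0
  unfold KK at h1
  simp only [eval_finsetSum, eval_zero, eval_mul, eval_C, eval_add] at h1
  have hw3 : w ^ 3 = 1 := by linear_combination (w - 1) * hw
  have hwn : w ^ n = 1 := by
    obtain ⟨t, ht⟩ : ∃ t, n = 3 * t := ⟨n / 3, by omega⟩
    rw [ht, pow_mul, hw3, one_pow]
  have hev : ∀ j ∈ range (n + 1), ee p m j * ((tA p n j).eval w + (tB p j).eval w + (tG p n j).eval w) =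
      3 * ee p m j := by
    intro j hj
    rw [mem_range] at hj
    have a1 : (tA p n j).eval w = 1 := by
      unfold tA
      simp only [eval_mul, eval_pow, eval_add, eval_one, eval_X]
      rw [pow_mul, show (1 + w) ^ 2 = w by linear_combination hw, ← pow_add,
        show j + (n - j) = n by omega, hwn]
    have a2 : (tB p j).eval w = 1 := by
      unfold tB
      simp only [eval_mul, eval_pow, eval_add, eval_one, eval_X, eval_neg]
      rw [show -(w * (1 + w)) = 1 by linear_combination -hw, one_pow]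
    have a3 : (tG p n j).eval w = 1 := by
      unfold tG
      simp only [eval_mul, eval_pow, eval_add, eval_one, eval_X, eval_neg]
      rw [show -(1 + w) = w ^ 2 by linear_combination -hw, pow_mul, ← pow_add,
        show j + (n - j) = n by omega, ← pow_mul, mul_comm, pow_mul, hwn, one_pow]
    rw [a1, a2, a3]
    ring
  rw [Finset.sum_congr rfl hev, ← mul_sum] at h1
  have h3ne : (3 : ZMod p) ≠ 0 := by
    have := cast_ne (p := p) (j := 3) (by omega) (by omega)
    exact_mod_cast this
  exact (mul_eq_zero.mp h1).resolve_left h3ne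

end Pool.Agent.V11304.EC
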