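import Mathlib
import Pool.Agent.V11304.EC.Four

/-!
The sum of `a(n)` over `n < p` modulo `p²`, `p ≡ 1 (mod 3)`.
-/

namespace Pool.Agent.V11304.EC

open Finset

variable {p : ℕ} [hp : Fact p.Prime]

theorem colm {m : ℕ} (hm : p = 3 * m + 1) (hev : Even m) :
    ((p : ℤ) ^ 2) ∣ ((∑ k ∈ range p, tm k m : ℕ) : ℤ) - (((2 * m).choose m : ℕ) : ℤ) := by
  have hp2 := hp.out.two_le
  have h1 := sum_tm m p
  have h2 : m.factorial ^ 3 * ∑ n ∈ range p, tm n m =
      (∏ i ∈ range m, (p + i + 1)) * ∏ i ∈ range (2 * m), (p - (i + 1)) := by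
    apply Nat.eq_of_mul_eq_mul_left hp.out.pos
    rw [← desc_eq p m (by omega), Nat.descFactorial_eq_factorial_mul_choose, Nat.factorial_succ, h1, ← hm]
    ring
  have h3 : ∏ i ∈ range (2 * m), (p - (i + 1)) =
      (∏ i ∈ range m, (p - (i + 1))) * (m.factorial * (2 * m).choose m) := by
    rw [two_mul, Finset.prod_range_add, ← two_mul, ← Nat.descFactorial_eq_factorial_mul_choose,
      Nat.descFactorial_eq_prod_range]
    congr 1
    refine Finset.prod_congr rfl fun i hi => ?_
    omega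
  have hm0 : 0 < m.factorial := Nat.factorial_pos m
  have h4 : m.factorial ^ 2 * ∑ n ∈ range p, tm n m =
      (∏ i ∈ range m, ((p + i + 1) * (p - (i + 1)))) * (2 * m).choose m := by
    apply Nat.eq_of_mul_eq_mul_left hm0
    rw [Finset.prod_mul_distrib]
    rw [h3] at h2
    linear_combination h2
  have h5 : ((p : ℤ) ^ 2) ∣ (((∏ i ∈ range m, ((p + i + 1) * (p - (i + 1))) : ℕ)) : ℤ) -
      ((m.factorial ^ 2 : ℕ) : ℤ) := by
    have e1 : ((m.factorial ^ 2 : ℕ) : ℤ) = ∏ i ∈ range m, (-(((i : ℤ) + 1) ^ 2)) := by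
      have : ∀ i ∈ range m, (-(((i : ℤ) + 1) ^ 2)) = (-1) * (((i : ℤ) + 1) ^ 2) := by
        intro i _; ring
      rw [Finset.prod_congr rfl this, Finset.prod_mul_distrib, Finset.prod_const, card_range,
        hev.neg_one_pow, one_mul, Finset.prod_pow, ← Finset.prod_range_add_one_eq_factorial]
      push_cast
      rfl
    rw [e1]
    rw [← Int.modEq_iff_dvd]
    push_cast
    apply Int.ModEq.symm
    rw [Int.modEq_iff_dvd]
    have key : ∀ k ≤ m, ((p : ℤ) ^ 2) ∣ ∏ i ∈ range k, (-(((i : ℤ) + 1) ^ 2)) -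
        ∏ i ∈ range k, (((p : ℤ) + i + 1) * ((p - (i + 1) : ℕ) : ℤ)) := by
      intro k
      induction k with
      | zero => simp
      | succ k ih =>
        intro hk
        obtain ⟨z, hz⟩ := ih (by omega)
        rw [Finset.prod_range_succ, Finset.prod_range_succ, Nat.cast_sub (by omega)]
        refine ⟨-z * ((k : ℤ) + 1) ^ 2 - ∏ i ∈ range k, (((p : ℤ) + i + 1) * ((p - (i + 1) : ℕ) : ℤ)), ?_⟩
        push_cast
        linear_combination (-((k : ℤ) + 1) ^ 2) * hz
    exact key m le_rfl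
  have h6 : ((p : ℤ) ^ 2) ∣ ((m.factorial ^ 2 : ℕ) : ℤ) *
      (((∑ k ∈ range p, tm k m : ℕ) : ℤ) - (((2 * m).choose m : ℕ) : ℤ)) := by
    obtain ⟨z, hz⟩ := h5
    refine ⟨z * (((2 * m).choose m : ℕ) : ℤ), ?_⟩
    have h7 := congrArg (fun t : ℕ => (t : ℤ)) h4
    simp only [Nat.cast_mul] at h7
    linear_combination h7 + (((2 * m).choose m : ℕ) : ℤ) * hz
  have hcop : IsCoprime ((p : ℤ) ^ 2) ((m.factorial ^ 2 : ℕ) : ℤ) := by
    have : Nat.Coprime (p ^ 2) (m.factorial ^ 2) := by
      apply Nat.Coprime.pow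
      rw [hp.out.coprime_iff_not_dvd, hp.out.dvd_factorial]
      omega
    exact_mod_cast Nat.isCoprime_iff_coprime.mpr this
  exact hcop.dvd_of_dvd_mul_left h6

theorem main1 {n m : ℕ} (hn : p = 2 * n + 1) (hm : p = 3 * m + 1) :
    ((p : ℤ) ^ 2) ∣ ((∑ k ∈ range p, ∑ j ∈ range (k + 1), tm k j : ℕ) : ℤ)
      - (((2 * m).choose m : ℕ) : ℤ) := by
  have hp2 := hp.out.two_le
  have hmn : m ≤ n := by omega
  have hev : Even m := by
    rw [Nat.even_iff]; omega
  have hcol : ∀ j ∈ (range (n + 1)).erase m, ∃ y : ℕ, ∑ k ∈ range p, tm k j = p * y ∧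
      ((y : ℕ) : ZMod p) = c p j / (3 * (j : ZMod p) + 1) := by
    intro j hj
    rw [mem_erase, mem_range] at hj
    apply col j (by omega)
    intro h0
    have hd := (ZMod.natCast_eq_zero_iff _ p).mp h0
    obtain ⟨t, ht⟩ := hd
    have ht2 : t < 2 := by
      by_contra hge
      have : 2 ≤ t := by omega
      have : p * 2 ≤ p * t := Nat.mul_le_mul_left p this
      omega
    interval_cases t
    · omega
    · omega
  choose! y hy1 hy2 using hcol
  have hA : ∑ k ∈ range p, ∑ j ∈ range (k + 1), tm k j =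
      p * ∑ j ∈ (range (n + 1)).erase m, y j + ∑ k ∈ range p, tm k m := by
    have s1 : ∀ k ∈ range p, ∑ j ∈ range (k + 1), tm k j = ∑ j ∈ range p, tm k j := by
      intro k hk
      rw [mem_range] at hk
      refine Finset.sum_subset (fun x hx => ?_) (fun x _ hx => ?_)
      · rw [mem_range] at hx ⊢; omega
      · rw [mem_range] at hx
        unfold tm
        rw [Nat.choose_eq_zero_of_lt (show k < x by omega)]
        simp
    rw [Finset.sum_congr rfl s1, Finset.sum_comm]
    have s2 : ∑ j ∈ range p, ∑ k ∈ range p, tm k j = ∑ j ∈ range (n + 1), ∑ k ∈ range p, tm k j := by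
      symm
      refine Finset.sum_subset (fun x hx => ?_) (fun x _ hx => ?_)
      · rw [mem_range] at hx ⊢; omega
      · rw [mem_range] at hx
        apply Finset.sum_eq_zero
        intro k hk
        rw [mem_range] at hk
        unfold tm
        rcases Nat.lt_or_ge k x with h | h
        · rw [Nat.choose_eq_zero_of_lt h]; simp
        · rw [Nat.choose_eq_zero_of_lt (show k - x < x by omega)]; simp
    rw [s2, mul_sum, ← Finset.sum_erase_add _ _ (mem_range.mpr (show m < n + 1 by omega))]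
    congr 1
    exact Finset.sum_congr rfl fun j hj => hy1 j hj
  have h3m : 3 * (m : ZMod p) + 1 = 0 := by
    have : ((3 * m + 1 : ℕ) : ZMod p) = 0 := by rw [← hm]; exact ZMod.natCast_self p
    push_cast at this
    exact this
  have h3ne : (3 : ZMod p) ≠ 0 := by
    have := cast_ne (p := p) (j := 3) (by omega) (by omega)
    exact_mod_cast this
  have hT : ((∑ j ∈ (range (n + 1)).erase m, y j : ℕ) : ZMod p) = 0 := by
    have h1 := esum hn hm
    rw [← Finset.sum_erase_add _ _ (mem_range.mpr (show m < n + 1 by omega))] at h1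
    have e0 : ee p m m = 0 := by simp [ee]
    rw [e0, add_zero] at h1
    push_cast
    apply mul_left_cancel₀ h3ne
    rw [mul_zero, ← h1, mul_sum]
    refine Finset.sum_congr rfl fun j hj => ?_
    rw [hy2 j hj]
    have hj2 := hj
    rw [mem_erase, mem_range] at hj2
    have n1 : (j : ZMod p) - m ≠ 0 := by
      intro h0
      have h1 : (j : ZMod p) = m := by linear_combination h0
      rw [ZMod.natCast_eq_natCast_iff', Nat.mod_eq_of_lt (by omega), Nat.mod_eq_of_lt (by omega)] at h1
      exact hj2.1 h1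
    have e : 3 * (j : ZMod p) + 1 = 3 * (j - m) := by linear_combination h3m
    rw [e]
    unfold ee
    field_simp
  have hd : (p : ℤ) ∣ ((∑ j ∈ (range (n + 1)).erase m, y j : ℕ) : ℤ) := by
    have := (ZMod.natCast_eq_zero_iff _ p).mp hT
    exact_mod_cast this
  obtain ⟨z, hz⟩ := hd
  obtain ⟨w, hw⟩ := colm hm hev
  refine ⟨z + w, ?_⟩
  rw [hA]
  push_cast at hz hw ⊢
  linear_combination (p : ℤ) * hz + hw

end Pool.Agent.V11304.EC
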